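import Pool.Agent.Helper9.MP.Lat

open scoped BigOperators Real Topology
open Complex

namespace Pool.Agent.Helper96.MP

theorem cnta_uni {N M : ℕ} (h : M ∣ N) {s t : ℤ} (hu : Uni N s t) : Uni M s t := by
  unfold Uni at *
  have h1 : Int.gcd (Int.gcd s t) M ∣ Int.gcd (Int.gcd s t) N := by
    apply Int.dvd_gcd
    · exact Int.gcd_dvd_left _ _
    · exact (Int.gcd_dvd_right _ _).trans (by exact_mod_cast h)
  rw [hu] at h1
  exact Nat.dvd_one.1 h1

theorem cnta_bez {N : ℕ} {s t : ℤ} (hu : Uni N s t) :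
    ∃ u v w : ℤ, u * s + v * t + w * N = 1 := by
  unfold Uni at hu
  have h1 := Int.gcd_eq_gcd_ab s t
  have h2 := Int.gcd_eq_gcd_ab (Int.gcd s t : ℤ) (N : ℤ)
  rw [hu] at h2
  refine ⟨Int.gcdA s t * Int.gcdA (Int.gcd s t) N, Int.gcdB s t * Int.gcdA (Int.gcd s t) N,
    Int.gcdB (Int.gcd s t) N, ?_⟩
  have h3 : ((1 : ℕ) : ℤ) = 1 := rfl
  rw [h3] at h2
  rw [h2]
  linear_combination (-(Int.gcdA (Int.gcd s t) N)) * h1

theorem cnta_eqv {N M : ℕ} (h : M ∣ N) {c d c' d' : ℤ} (he : eqv N c d c' d') :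
    eqv M c d c' d' := by
  obtain ⟨l, hl, h1, h2⟩ := he
  have hZ : (M : ℤ) ∣ (N : ℤ) := by exact_mod_cast h
  exact ⟨l, IsCoprime.of_isCoprime_of_dvd_right hl hZ, hZ.trans h1, hZ.trans h2⟩

/-- reduction of the projective line -/
def cnta_red {N M : ℕ} (h : M ∣ N) : PN N → PN M :=
  Quotient.lift (fun u : UP N => Quotient.mk (sPN M) ⟨u.1, cnta_uni h u.2⟩)
    (fun u v huv => Quotient.sound (s := sPN M) (cnta_eqv h huv))

theorem cnta_crt {M Q : ℕ} (hc : Nat.Coprime Q M) {c d c' d' : ℤ}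
    (h1 : eqv M c d c' d') (h2 : eqv Q c d c' d') : eqv (Q * M) c d c' d' := by
  obtain ⟨l, hl, a1, a2⟩ := h1
  obtain ⟨m, hm, b1, b2⟩ := h2
  have hcZ : IsCoprime (Q : ℤ) (M : ℤ) := Nat.isCoprime_iff_coprime.2 hc
  obtain ⟨u, v, huv⟩ := hcZ
  -- u Q + v M = 1; k = l u Q + m v M
  have hcZ : IsCoprime (Q : ℤ) (M : ℤ) := Nat.isCoprime_iff_coprime.2 hc
  refine ⟨l * (u * Q) + m * (v * M), ?_, ?_, ?_⟩
  · push_cast
    apply IsCoprime.mul_right
    · have : l * (u * Q) + m * (v * M) = m + Q * (u * (l - m)) := by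
        linear_combination m * huv
      rw [this]
      exact IsCoprime.add_mul_left_left hm _
    · have : l * (u * Q) + m * (v * M) = l + M * (v * (m - l)) := by
        linear_combination l * huv
      rw [this]
      exact IsCoprime.add_mul_left_left hl _
  · push_cast
    apply hcZ.mul_dvd
    · have : c' - (l * (u * Q) + m * (v * M)) * c = (c' - m * c) + Q * (u * (m - l) * c) := by
        linear_combination (-(m * c)) * huv
      rw [this]; exact dvd_add b1 (dvd_mul_right _ _)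
    · have : c' - (l * (u * Q) + m * (v * M)) * c = (c' - l * c) + M * (v * (l - m) * c) := by
        linear_combination (-(l * c)) * huv
      rw [this]; exact dvd_add a1 (dvd_mul_right _ _)
  · push_cast
    apply hcZ.mul_dvd
    · have : d' - (l * (u * Q) + m * (v * M)) * d = (d' - m * d) + Q * (u * (m - l) * d) := by
        linear_combination (-(m * d)) * huv
      rw [this]; exact dvd_add b2 (dvd_mul_right _ _)
    · have : d' - (l * (u * Q) + m * (v * M)) * d = (d' - l * d) + M * (v * (l - m) * d) := by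
        linear_combination (-(l * d)) * huv
      rw [this]; exact dvd_add a2 (dvd_mul_right _ _)

theorem cnta_inj {N M Q : ℕ} (hN : N = Q * M) (hc : Nat.Coprime Q M) (hM : M ∣ N) (hQ : Q ∣ N) :
    Function.Injective (fun x : PN N => (cnta_red hM x, cnta_red hQ x)) := by
  intro x y
  refine Quotient.inductionOn₂ x y ?_
  intro u v h
  have h1 := congrArg Prod.fst h
  have h2 := congrArg Prod.snd h
  have h1' : eqv M u.1.1 u.1.2 v.1.1 v.1.2 := Quotient.exact (s := sPN M) h1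
  have h2' : eqv Q u.1.1 u.1.2 v.1.1 v.1.2 := Quotient.exact (s := sPN Q) h2
  apply Quotient.sound (s := sPN N)
  have h3 := cnta_crt hc h1' h2'
  rw [← hN] at h3
  exact h3

theorem cnta_psi (Q : ℕ) (hQ : Q ≠ 0) : psi Q ≤ Q * (Q.divisors.card : ℝ) := by
  unfold psi
  apply mul_le_mul_of_nonneg_left _ (Nat.cast_nonneg _)
  rw [Nat.card_divisors hQ]
  push_cast
  apply Finset.prod_le_prod
  · intro p _; positivity
  · intro p hp
    have h1 := Nat.prime_of_mem_primeFactors hp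
    have h2 : 1 ≤ Q.factorization p :=
      (h1.dvd_iff_one_le_factorization hQ).1 (Nat.dvd_of_mem_primeFactors hp)
    have h3 : (1 : ℝ) ≤ (Q.factorization p : ℝ) := by exact_mod_cast h2
    have h4 : (1 : ℝ) ≤ p := by exact_mod_cast h1.one_lt.le
    have h5 : 1 / (p : ℝ) ≤ 1 := by
      rw [div_le_one (by linarith)]; exact h4
    linarith

theorem cnta_unit {N M : ℕ} {a b c d s t μ : ℤ} (hM : M ∣ N) (hu : Uni N s t)
    (hD : IsCoprime (a * d - b * c) (M : ℤ))
    (h1 : (N : ℤ) ∣ s * a + t * c - μ * s) (h2 : (N : ℤ) ∣ s * b + t * d - μ * t) :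
    IsCoprime μ (M : ℤ) := by
  obtain ⟨u, v, w, hb⟩ := cnta_bez hu
  obtain ⟨x, hx⟩ := h1
  obtain ⟨y, hy⟩ := h2
  obtain ⟨k, hk⟩ := hM
  obtain ⟨e, f, hef⟩ := hD
  have hN : (N : ℤ) = M * k := by exact_mod_cast hk
  -- s D = (sa+tc) d - (sb+td) c = mu (s d - t c) + N (x d - y c)
  -- t D = (sb+td) a - (sa+tc) b = mu (t a - s b) + N (y a - x b)
  refine ⟨e * (u * (s * d - t * c) + v * (t * a - s * b)),
    f + e * k * (w * (a * d - b * c) + u * (x * d - y * c) + v * (y * a - x * b)), ?_⟩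
  have hs : s * (a * d - b * c) = μ * (s * d - t * c) + N * (x * d - y * c) := by
    linear_combination d * hx - c * hy
  have ht : t * (a * d - b * c) = μ * (t * a - s * b) + N * (y * a - x * b) := by
    linear_combination a * hy - b * hx
  rw [hN] at hs ht hb
  linear_combination hef - e * u * hs - e * v * ht + e * (a * d - b * c) * hb

theorem st_CNTA (hF : ST_FIX) (hP : ST_PNF) : ST_CNTA := by
  intro N Q A n a b c d hN hQ hn hdet ha hb hc hd hsc
  rw [UD, Finset.mem_filter, Nat.mem_divisors] at hQ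
  obtain ⟨⟨hQN, hN0⟩, hcop⟩ := hQ
  obtain ⟨M, hMdef⟩ : ∃ M, M = N / Q := ⟨_, rfl⟩
  rw [← hMdef] at hcop
  have hNM : N = Q * M := by rw [hMdef]; exact (Nat.mul_div_cancel' hQN).symm
  have hMN : M ∣ N := ⟨Q, by rw [mul_comm]; exact hNM⟩
  have hQ0 : Q ≠ 0 := by rintro rfl; simp at hNM; exact hN0 hNM
  have hM0 : M ≠ 0 := by
    intro h; rw [h] at hNM; simp at hNM; exact hN0 hNM
  have hdc : IsCoprime (a * d - b * c) (M : ℤ) := by
    rw [hdet]
    apply IsCoprime.mul_left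
    · exact IsCoprime.of_isCoprime_of_dvd_right hn (by exact_mod_cast hMN)
    · exact Nat.isCoprime_iff_coprime.2 hcop
  have hfix := hF M A a b c d 1 0 0 1 (Nat.one_le_iff_ne_zero.2 hM0) hdc
    (by norm_num; exact isCoprime_one_left)
    (by simpa using ha) (by simpa using hb) (by simpa using hc) (by simpa using hd)
    (by
      rintro ⟨e1, e2, e3⟩
      apply hsc
      refine ⟨by linarith, by linarith, by linarith⟩)
  set S : Set (PN M) := {x : PN M | ∃ (s t : ℤ) (h : Uni M s t),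
    x = Quotient.mk (sPN M) ⟨(s, t), h⟩ ∧
    eqv M (s * a + t * c) (s * b + t * d) (s * 1 + t * 0) (s * 0 + t * 1)} with hS
  have hfix' : (S.ncard : ℝ) ≤ 2 * A * (M.divisors.card : ℝ) ^ 2 * Real.sqrt M := hfix
  have : Finite (PN N) := (hP N hN).1
  have : Finite (PN M) := (hP M (Nat.one_le_iff_ne_zero.2 hM0)).1
  have : Finite (PN Q) := (hP Q (Nat.one_le_iff_ne_zero.2 hQ0)).1
  have hcard : (Fx N Q a b c d).ncard ≤ S.ncard * Nat.card (PN Q) := by
    rw [← Set.ncard_univ (PN Q), ← Set.ncard_prod]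
    apply Set.ncard_le_ncard_of_injOn (fun x : PN N => (cnta_red hMN x, cnta_red hQN x))
    · rintro x ⟨s, t, μ, hu, rfl, hQμ, h1, h2⟩
      refine ⟨?_, Set.mem_univ _⟩
      refine ⟨s, t, cnta_uni hMN hu, rfl, ?_⟩
      have hMZ : (M : ℤ) ∣ (N : ℤ) := by exact_mod_cast hMN
      have hμ : IsCoprime μ (M : ℤ) := cnta_unit hMN hu hdc h1 h2
      have : eqv M (s * 1 + t * 0) (s * 0 + t * 1) (s * a + t * c) (s * b + t * d) := by
        refine ⟨μ, hμ, ?_, ?_⟩
        · have : s * a + t * c - μ * (s * 1 + t * 0) = s * a + t * c - μ * s := by ring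
          rw [this]; exact hMZ.trans h1
        · have : s * b + t * d - μ * (s * 0 + t * 1) = s * b + t * d - μ * t := by ring
          rw [this]; exact hMZ.trans h2
      exact eqv_symm this
    · exact (cnta_inj hNM hcop hMN hQN).injOn
  have hQc : (Nat.card (PN Q) : ℝ) ≤ Q * (Q.divisors.card : ℝ) :=
    (hP Q (Nat.one_le_iff_ne_zero.2 hQ0)).2.2.trans (cnta_psi Q hQ0)
  have hτM : (M.divisors.card : ℝ) ≤ N.divisors.card := by
    exact_mod_cast Finset.card_le_card (Nat.divisors_subset_of_dvd hN0 hMN)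
  have hτQ : (Q.divisors.card : ℝ) ≤ N.divisors.card := by
    exact_mod_cast Finset.card_le_card (Nat.divisors_subset_of_dvd hN0 hQN)
  have hsq : Real.sqrt M ≤ Real.sqrt N := by
    apply Real.sqrt_le_sqrt
    exact_mod_cast Nat.le_of_dvd (Nat.pos_of_ne_zero hN0) hMN
  have hcard' : ((Fx N Q a b c d).ncard : ℝ) ≤ (S.ncard : ℝ) * (Nat.card (PN Q) : ℝ) := by
    exact_mod_cast hcard
  have e1 : (0 : ℝ) ≤ (M.divisors.card : ℝ) := Nat.cast_nonneg _
  have e2 : (0 : ℝ) ≤ (N.divisors.card : ℝ) := Nat.cast_nonneg _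
  have e3 : (0 : ℝ) ≤ (Q.divisors.card : ℝ) := Nat.cast_nonneg _
  have e4 : (0 : ℝ) ≤ (Nat.card (PN Q) : ℝ) := Nat.cast_nonneg _
  generalize ((Fx N Q a b c d).ncard : ℝ) = F at hcard' ⊢
  generalize (S.ncard : ℝ) = G at hcard' hfix'
  generalize (M.divisors.card : ℝ) = x at hfix' hτM e1
  generalize (N.divisors.card : ℝ) = y at hτM hτQ e2 ⊢
  generalize (Q.divisors.card : ℝ) = z at hQc hτQ e3
  generalize (Nat.card (PN Q) : ℝ) = w at hQc hcard' e4
  calc F ≤ G * w := hcard'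
    _ ≤ (2 * A * x ^ 2 * Real.sqrt M) * (Q * z) := by
        apply mul_le_mul hfix' hQc e4
        positivity
    _ ≤ (2 * A * y ^ 2 * Real.sqrt N) * (Q * y) := by
        gcongr
    _ = 2 * A * y ^ 3 * Real.sqrt N * Q := by ring

end Pool.Agent.Helper96.MP
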