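import Pool.Agent.Helper9.MP.Lat

/-!
# MP_bde085_nt, block D, module PIW: the projector `∑ χ(Q) w_Q`
-/

set_option autoImplicit false

namespace Pool.Agent.Helper96.MP

open Complex MeasureTheory Filter Topology
open scoped MatrixGroups

theorem piw_mo {N Q : ℕ} (hQ : Q ∈ UD N) {A B C D : ℤ} (h : TQ N Q 1 A B C D)
    {z : ℂ} (hz : z ∈ UH) : mo A B C D z ∈ UH := by
  have hQ0 : 0 < Q := by
    rw [UD, Finset.mem_filter, Nat.mem_divisors] at hQ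
    exact Nat.pos_of_ne_zero (fun e => hQ.1.2 (by
      have := hQ.1.1; rw [e] at this; exact Nat.eq_zero_of_zero_dvd this))
  have hz' : 0 < z.im := hz
  have hdet : A * D - B * C = (Q : ℤ) := by have := h.1; linarith
  have hne : (C : ℂ) * z + D ≠ 0 := by
    intro h0
    have him : ((C : ℂ) * z + D).im = 0 := by rw [h0]; simp
    have hre : ((C : ℂ) * z + D).re = 0 := by rw [h0]; simp
    have h1 : (C : ℝ) * z.im = 0 := by simpa using him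
    have hC : (C : ℝ) = 0 := by
      rcases mul_eq_zero.mp h1 with h2 | h2
      · exact h2
      · exact absurd h2 (ne_of_gt hz')
    have hD : (D : ℝ) = 0 := by
      have : (C : ℝ) * z.re + (D : ℝ) = 0 := by simpa using hre
      rw [hC] at this; linarith
    have hC' : C = 0 := by exact_mod_cast hC
    have hD' : D = 0 := by exact_mod_cast hD
    rw [hC', hD'] at hdet
    have : (Q : ℤ) = 0 := by linarith
    have : Q = 0 := by exact_mod_cast this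
    omega
  show 0 < (mo A B C D z).im
  rw [Lib.mo_im A B C D z hne, hdet]
  have : (0 : ℝ) < (Q : ℝ) := by exact_mod_cast hQ0
  have h3 : 0 < ‖(C : ℂ) * z + D‖ := norm_pos_iff.2 hne
  push_cast
  positivity

theorem piw_add {N Q : ℕ} (hF : ST_FCL) (hN : 1 ≤ N) (hQ : Q ∈ UD N) {b b' c c' : ℕ → ℂ}
    (hb : Cusp N b) (hb' : Cusp N b') (hc : Cusp N c) (hc' : Cusp N c')
    (h : AL0 N Q b c) (h' : AL0 N Q b' c') :
    AL0 N Q (fun n => b n + b' n) (fun n => c n + c' n) := by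
  intro A B C D hT z hz
  rw [(hF N c c' 0 hN hc hc').2.2.2.2.1 z hz, (hF N b b' 0 hN hb hb').2.2.2.2.1 _ (piw_mo hQ hT hz),
    h A B C D hT z hz, h' A B C D hT z hz]
  ring

theorem piw_smul {N Q : ℕ} (hF : ST_FCL) (hN : 1 ≤ N) (hQ : Q ∈ UD N) {b c : ℕ → ℂ} (k : ℂ)
    (hb : Cusp N b) (hc : Cusp N c) (h : AL0 N Q b c) :
    AL0 N Q (fun n => k * b n) (fun n => k * c n) := by
  intro A B C D hT z hz
  rw [(hF N c c k hN hc hc).2.2.2.2.2 z hz, (hF N b b k hN hb hb).2.2.2.2.2 _ (piw_mo hQ hT hz),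
    h A B C D hT z hz]
  ring

/-- a choice of the Atkin-Lehner operator -/
theorem piw_op (hE : ST_WEX) (hW : ST_WMUL) (hF : ST_FCL) {N Q : ℕ} (S : Submodule ℂ (ℕ → ℂ))
    (hN : 1 ≤ N) (hQ : Q ∈ UD N) (hS : ∀ b, b ∈ S ↔ Cusp N b) :
    ∃ w : S →ₗ[ℂ] S, ∀ b : S, AL0 N Q (b : ℕ → ℂ) (w b : ℕ → ℂ) := by
  have h1 : ∀ b : S, ∃ c : S, AL0 N Q (b : ℕ → ℂ) (c : ℕ → ℂ) := by
    intro b
    obtain ⟨c, hc, hbc⟩ := hE N Q b hN hQ ((hS _).1 b.2)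
    exact ⟨⟨c, (hS c).2 hc⟩, hbc⟩
  choose f hf using h1
  refine ⟨{ toFun := f, map_add' := ?_, map_smul' := ?_ }, hf⟩
  · intro x y
    apply Subtype.ext
    have hx := (hS _).1 x.2
    have hy := (hS _).1 y.2
    have hfx := (hS _).1 (f x).2
    have hfy := (hS _).1 (f y).2
    have hxy : Cusp N ((x + y : S) : ℕ → ℂ) := (hS _).1 (x + y).2
    have hfxy : Cusp N ((f (x + y) : S) : ℕ → ℂ) := (hS _).1 (f (x + y)).2
    have hd : Cusp N ((f x + f y : S) : ℕ → ℂ) := (hS _).1 (f x + f y).2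
    have h2 : AL0 N Q ((x + y : S) : ℕ → ℂ) ((f x + f y : S) : ℕ → ℂ) :=
      piw_add hF hN hQ hx hy hfx hfy (hf x) (hf y)
    exact (hW N Q Q _ _ _ hN hQ hQ hxy hfxy hd (hf (x + y))).2.1 h2
  · intro k x
    apply Subtype.ext
    have hx := (hS _).1 x.2
    have hfx := (hS _).1 (f x).2
    have hkx : Cusp N ((k • x : S) : ℕ → ℂ) := (hS _).1 (k • x).2
    have hfkx : Cusp N ((f (k • x) : S) : ℕ → ℂ) := (hS _).1 (f (k • x)).2
    have hd : Cusp N ((k • f x : S) : ℕ → ℂ) := (hS _).1 (k • f x).2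
    have h2 : AL0 N Q ((k • x : S) : ℕ → ℂ) ((k • f x : S) : ℕ → ℂ) :=
      piw_smul hF hN hQ k hx hfx (hf x)
    exact (hW N Q Q _ _ _ hN hQ hQ hkx hfkx hd (hf (k • x))).2.1 h2

theorem piw_lc_add (hF : ST_FCL) {N : ℕ} (hN : 1 ≤ N) {b b' : ℕ → ℂ} (hb : b ∈ Lc N)
    (hb' : b' ∈ Lc N) : (fun n => b n + b' n) ∈ Lc N := by
  obtain ⟨h1, h2⟩ := hb
  obtain ⟨h1', h2'⟩ := hb'
  have hf := hF N b b' 0 hN h1 h1'
  refine ⟨hf.1, ?_⟩
  intro p q r s hG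
  obtain ⟨k, hk⟩ := h2 p q r s hG
  obtain ⟨k', hk'⟩ := h2' p q r s hG
  refine ⟨k + k', ?_⟩
  rw [hf.2.2.1, hf.2.2.1]
  push_cast
  rw [← hk, ← hk']
  simp only [Complex.sub_re, Complex.add_re]
  ring

theorem piw_lc_smul (hF : ST_FCL) {N : ℕ} (hN : 1 ≤ N) {b : ℕ → ℂ} (hb : b ∈ Lc N) (m : ℤ) :
    (fun n => ((m : ℝ) : ℂ) * b n) ∈ Lc N := by
  obtain ⟨h1, h2⟩ := hb
  have hf := hF N b b ((m : ℝ) : ℂ) hN h1 h1
  refine ⟨hf.2.1, ?_⟩
  intro p q r s hG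
  obtain ⟨k, hk⟩ := h2 p q r s hG
  refine ⟨m * k, ?_⟩
  rw [hf.2.2.2.1, hf.2.2.2.1, ← mul_sub, Complex.re_ofReal_mul, hk]
  push_cast
  ring

theorem piw_lc_sum (hF : ST_FCL) {N : ℕ} (hN : 1 ≤ N) (S : Submodule ℂ (ℕ → ℂ))
    (hS : ∀ b, b ∈ S ↔ Cusp N b) (χ : ℕ → ℝ) (T : Finset ℕ)
    (hχ : ∀ Q ∈ T, χ Q = 1 ∨ χ Q = -1) (x : ℕ → S) (hx : ∀ Q ∈ T, (x Q : ℕ → ℂ) ∈ Lc N) (b : S)
    (hb : (b : ℕ → ℂ) ∈ Lc N) :
    ((∑ Q ∈ T, (χ Q : ℂ) • x Q : S) : ℕ → ℂ) ∈ Lc N := by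
  classical
  induction T using Finset.induction_on with
  | empty =>
    rw [Finset.sum_empty]
    have h0 := piw_lc_smul hF hN hb 0
    have : (fun n => (((0 : ℤ) : ℝ) : ℂ) * (b : ℕ → ℂ) n) = ((0 : S) : ℕ → ℂ) := by
      funext n; simp
    rw [this] at h0
    exact h0
  | insert Q T hQT ih =>
    rw [Finset.sum_insert hQT]
    have ih' := ih (fun Q hQ => hχ Q (Finset.mem_insert_of_mem hQ))
      (fun Q hQ => hx Q (Finset.mem_insert_of_mem hQ))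
    have h1 : (((χ Q : ℂ) • x Q : S) : ℕ → ℂ) ∈ Lc N := by
      rcases hχ Q (Finset.mem_insert_self _ _) with h | h
      · have h2 := piw_lc_smul hF hN (hx Q (Finset.mem_insert_self _ _)) 1
        rw [h]
        have h3 : (((1 : ℤ) : ℝ) : ℂ) = ((1 : ℝ) : ℂ) := by norm_num
        rw [h3] at h2
        exact h2
      · have h2 := piw_lc_smul hF hN (hx Q (Finset.mem_insert_self _ _)) (-1)
        rw [h]
        have h3 : (((-1 : ℤ) : ℝ) : ℂ) = ((-1 : ℝ) : ℂ) := by norm_num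
        rw [h3] at h2
        exact h2
    exact piw_lc_add hF hN h1 ih'

/-- the Petersson product as a linear form in the first variable -/
theorem piw_lin (hP : ST_PET) {N : ℕ} (hN : 1 ≤ N) (S : Submodule ℂ (ℕ → ℂ))
    (hS : ∀ b, b ∈ S ↔ Cusp N b) {W : ℂ → ℝ} (hW : WOK N W) (b' : S) :
    ∃ L : S →ₗ[ℂ] ℂ, ∀ x : S, L x = pet W (x : ℕ → ℂ) (b' : ℕ → ℂ) := by
  obtain ⟨C0, _, h⟩ := hP
  have hb' := (hS _).1 b'.2
  refine ⟨{ toFun := fun x => pet W (x : ℕ → ℂ) (b' : ℕ → ℂ), map_add' := ?_, map_smul' := ?_ },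
    fun x => rfl⟩
  · intro x y
    have hx := (hS _).1 x.2
    have hy := (hS _).1 y.2
    exact (h N W hN hW x y b' hx hy hb').2.1
  · intro k x
    have hx := (hS _).1 x.2
    exact (h N W hN hW x b' b' hx hb' hb').2.2.1 k

theorem st_PIW (hE : ST_WEX) (hM : ST_WMUL) (hT : ST_TQM) (hL : ST_WLC) (hU : ST_PWQ)
    (hF : ST_FCL) (hP : ST_PET) : ST_PIW := by
  intro N χ S hN hχ hS
  classical
  have hw : ∀ Q : {Q // Q ∈ UD N}, ∃ w : S →ₗ[ℂ] S, ∀ b : S,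
      AL0 N Q.1 (b : ℕ → ℂ) (w b : ℕ → ℂ) := fun Q => piw_op hE hM hF S hN Q.2 hS
  choose w0 hw0 using hw
  set w : ℕ → (S →ₗ[ℂ] S) := fun Q => if h : Q ∈ UD N then w0 ⟨Q, h⟩ else 0 with hwdef
  have hwQ : ∀ Q ∈ UD N, ∀ b : S, AL0 N Q (b : ℕ → ℂ) (w Q b : ℕ → ℂ) := by
    intro Q hQ b
    have h1 := hw0 ⟨Q, hQ⟩ b
    have h2 : w Q = w0 ⟨Q, hQ⟩ := by rw [hwdef]; exact dif_pos hQ
    rw [h2]; exact h1
  clear_value w
  obtain ⟨⟨h1UD, hUD⟩, -, -, -, -⟩ := hT N hN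
  have hcu : ∀ b : S, Cusp N (b : ℕ → ℂ) := fun b => (hS _).1 b.2
  have huniq : ∀ Q ∈ UD N, ∀ b c : S, AL0 N Q (b : ℕ → ℂ) (c : ℕ → ℂ) → w Q b = c := by
    intro Q hQ b c h
    apply Subtype.ext
    exact (hM N Q Q b (w Q b) c hN hQ hQ (hcu b) (hcu _) (hcu c) (hwQ Q hQ b)).2.1 h
  have hmul : ∀ Q ∈ UD N, ∀ Q' ∈ UD N, ∀ b : S, w Q' (w Q b) = w (cx Q Q') b := by
    intro Q hQ Q' hQ' b
    symm
    apply huniq _ (hUD Q hQ Q' hQ').1
    exact (hM N Q Q' b (w Q b) _ hN hQ hQ' (hcu b) (hcu _) (hcu _) (hwQ Q hQ b)).1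
      (hwQ Q' hQ' (w Q b))
  have hinv : ∀ Q ∈ UD N, ∀ b : S, AL0 N Q (w Q b : ℕ → ℂ) (b : ℕ → ℂ) := by
    intro Q hQ b
    exact (hM N Q Q b (w Q b) b hN hQ hQ (hcu b) (hcu _) (hcu _) (hwQ Q hQ b)).2.2.1
  refine ⟨∑ Q ∈ UD N, (χ Q : ℂ) • w Q, ?_, ?_, ?_, ?_⟩
  · intro b Q hQ
    have key : w Q ((∑ Q' ∈ UD N, (χ Q' : ℂ) • w Q') b) =
        (χ Q : ℂ) • ((∑ Q' ∈ UD N, (χ Q' : ℂ) • w Q') b) := by
      rw [LinearMap.sum_apply, map_sum, Finset.smul_sum]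
      apply Finset.sum_nbij' (fun Q' => cx Q' Q) (fun Q' => cx Q' Q)
      · intro Q' hQ'; exact (hUD Q' hQ' Q hQ).1
      · intro Q' hQ'; exact (hUD Q' hQ' Q hQ).1
      · intro Q' hQ'; exact (hUD Q' hQ' Q hQ).2.1
      · intro Q' hQ'; exact (hUD Q' hQ' Q hQ).2.1
      · intro Q' hQ'
        rw [LinearMap.smul_apply, map_smul, hmul Q' hQ' Q hQ, LinearMap.smul_apply, smul_smul,
          hχ.mul Q' hQ' Q hQ]
        congr 1
        rcases hχ.sign Q hQ with h | h <;> rw [h] <;> push_cast <;> ring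
    have h1 := hwQ Q hQ ((∑ Q' ∈ UD N, (χ Q' : ℂ) • w Q') b)
    rw [key] at h1
    exact h1
  · intro b hb
    rw [LinearMap.sum_apply]
    have : ∀ Q ∈ UD N, ((χ Q : ℂ) • w Q) b = b := by
      intro Q hQ
      have h1 : w Q b = (χ Q : ℂ) • b := huniq Q hQ b ((χ Q : ℂ) • b) (hb Q hQ)
      rw [LinearMap.smul_apply, h1, smul_smul]
      have h2 : (χ Q : ℂ) * (χ Q : ℂ) = 1 := by
        rcases hχ.sign Q hQ with h | h <;> rw [h] <;> push_cast <;> ring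
      rw [h2, one_smul]
    rw [Finset.sum_congr rfl this, Finset.sum_const]
    rw [Nat.cast_smul_eq_nsmul]
  · intro b hb
    rw [LinearMap.sum_apply]
    have h1 := piw_lc_sum hF hN S hS χ (UD N) hχ.sign (fun Q => w Q b)
      (fun Q hQ => hL.1 N Q b (w Q b) hN hQ (hcu _) (hwQ Q hQ b) hb) b hb
    exact h1
  · intro W hW b b'
    obtain ⟨L, hLL⟩ := piw_lin hP hN S hS hW b'
    obtain ⟨L', hLL'⟩ := piw_lin hP hN S hS hW b
    obtain ⟨C0, _, hPe⟩ := hP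
    have hsym : ∀ x y : S, pet W (y : ℕ → ℂ) (x : ℕ → ℂ) =
        (starRingEnd ℂ) (pet W (x : ℕ → ℂ) (y : ℕ → ℂ)) := fun x y =>
      (hPe N W hN hW x y y (hcu x) (hcu y) (hcu y)).2.2.2.1
    have hadj : ∀ Q ∈ UD N, ∀ x y : S, pet W (w Q x : ℕ → ℂ) (y : ℕ → ℂ) =
        pet W (x : ℕ → ℂ) (w Q y : ℕ → ℂ) := by
      intro Q hQ x y
      exact hU N Q W hN hW hQ x (w Q y) (w Q x) y (hcu _) (hcu _) (hcu _) (hcu _) (hwQ Q hQ x)
        (hinv Q hQ y)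
    rw [← hLL, hsym ((∑ Q ∈ UD N, (χ Q : ℂ) • w Q) b') b, ← hLL', LinearMap.sum_apply,
      LinearMap.sum_apply, map_sum, map_sum, map_sum]
    apply Finset.sum_congr rfl
    intro Q hQ
    rw [LinearMap.smul_apply, LinearMap.smul_apply, map_smul, map_smul, hLL, hLL', hadj Q hQ b b',
      smul_eq_mul, smul_eq_mul, map_mul, Complex.conj_ofReal, ← hsym (w Q b') b]

end Pool.Agent.Helper96.MP
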